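import Pool.Agent.W580.SH.StmB

/-! Project SH, part SH-ADJ: adjacency of tie rows for `θ = 1/3`. -/

namespace Pool.Agent.W991.SH

open Pool.Agent.W580.SH Finset

/-- in a stuck set at `θ = 1/3`: a tie row `s` constant `= c` on a triple of the tie row `l`
has value `c` at every `y ∈ A` with `y l = 1` -/
theorem const_of (hS : S_SEP) (hB : S_BOUND) (hF : S_F1)
    {R : Type} [Fintype R] [DecidableEq R] {I : Finset R} {A : Finset (R → ℤ)} {O : R → ℝ}
    {θ : ℝ} (H : HypB I A O θ) (hθ : θ = 1 / 3) {J : Finset R} (hJ : J ⊆ I)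
    {l : R} (hl : l ∈ J) (hOl : O l = θ) {s : R} (hs : s ∈ J) (hOs : 0 < O s) (hsl : s ≠ l)
    {u v : Fin 3 → (R → ℤ)} (hP : Pairs A J l 3 u v)
    (hc : ∀ i i', u i s = u i' s) : ∀ y ∈ A, y l = 1 → y s = u 0 s := by
  obtain ⟨j, hj, hjl, hne⟩ := hP.2 0 1 (by decide)
  obtain ⟨k, hk, hkl, hkj, e, g, he, hg, σ, hPr⟩ := hS R J A H.bin l u v hP j hj hjl ⟨0, 1, hne⟩
  have hb := hB R I A O θ H l j k e g (u ∘ σ) (v ∘ σ) (hJ hl) (hJ hj) (hJ hk) he hg hPr
  obtain ⟨hOj, hOk, he1, hg1⟩ := hb.2.2.2.2 hOl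
  subst he1 hg1
  refine hF R I A O θ H hθ l j k s (u 0 s) (u ∘ σ) (v ∘ σ) hPr hOl hOj hOk hOs ?_
  intro i
  refine ⟨hc _ _, ?_⟩
  have h1 := (hP.1 (σ i)).2.2.2.2 s hs hsl
  show v (σ i) s = u 0 s
  rw [← h1]
  exact hc _ _

/-- the adjacency of tie rows -/
theorem main (hS : S_SEP) (hB : S_BOUND) (hO : S_ONE) (hF : S_F1) : S_ADJ := by
  intro R _ _ I A O θ H hθ J hJ hSt l hl hOl s hs hOs hsl u v hP
  have hθ0 := H.pos
  constructor
  · intro hnc
    obtain ⟨-, i, hi, -⟩ := hO R I A O θ H J hJ l hl hOl u v hP s hs hsl hnc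
    exact ⟨u i, (hP.1 i).1, (hP.1 i).2.2.1, hi⟩
  · rintro ⟨y, hyA, hyl, hys⟩
    by_contra hcon
    have hc : ∀ i i', u i s = u i' s := by
      intro i i'
      by_contra h
      exact hcon ⟨i, i', h⟩
    have F := const_of hS hB hF H hθ hJ hl hOl hs (by rw [hOs]; exact hθ0) hsl hP hc
    obtain ⟨u', v', hP'⟩ := hSt.2 s hs
    -- `l` is constant on the triple at `s`
    have hc' : ∀ i i', u' i l = u' i' l := by
      intro i i'
      by_contra h
      obtain ⟨-, i0, hi0, -⟩ := hO R I A O θ H J hJ s hs hOs u' v' hP' l hl (Ne.symm hsl)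
        ⟨i, i', h⟩
      have h1 := (hP'.1 i0).2.2.2.2 l hl (Ne.symm hsl)
      have h2 := F (u' i0) (hP'.1 i0).1 hi0
      have h3 := F (v' i0) (hP'.1 i0).2.1 (by rw [← h1]; exact hi0)
      have h4 := (hP'.1 i0).2.2.1
      have h5 := (hP'.1 i0).2.2.2.1
      rw [h4] at h2
      rw [h5] at h3
      omega
    have F' := const_of hS hB hF H hθ hJ hs hOs hl (by rw [hOl]; exact hθ0) (Ne.symm hsl) hP' hc'
    have hy := F y hyA hyl
    have hy' := F' y hyA hys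
    have hv0 := F' (v 0) (hP.1 0).2.1
      (by
        have h1 := (hP.1 0).2.2.2.2 s hs hsl
        rw [← h1, ← hy, hys])
    have hv1 := (hP.1 0).2.2.2.1
    rw [hyl] at hy'
    rw [hv1] at hv0
    omega

end Pool.Agent.W991.SH
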